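import Pool.Agent.BLP.StmtsA

/-!
# Squad BLP, row A_PAB: a path is monotone
-/

namespace Pool.Agent.BLP.H52

open Pool.Agent.BLP

theorem pab : PabStmt := by
  intro m n s t τ h hmn
  obtain ⟨hs, ht, hstep⟩ := h
  have key : ∀ r r' : ℤ, m - 1 ≤ r → r ≤ r' → r' ≤ n → τ r ≤ τ r' := by
    intro r r' hr hrr'
    refine Int.le_induction (m := r) (motive := fun k _ => k ≤ n → τ r ≤ τ k) ?_ ?_ r' hrr'
    · intro _
      exact le_refl _
    · intro k hk ih hkn
      have h1 : τ r ≤ τ k := ih (by omega)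
      have h2 : τ (k + 1 - 1) ≤ τ (k + 1) := hstep (k + 1) (by omega) hkn
      have h3 : k + 1 - 1 = k := by ring
      rw [h3] at h2
      exact le_trans h1 h2
  refine ⟨key, ?_, ?_⟩
  · intro r hr1 hr2
    constructor
    · rw [← hs]
      exact key (m - 1) r (le_refl _) hr1 hr2
    · rw [← ht]
      exact key r n hr1 hr2 (le_refl _)
  · rw [← hs, ← ht]
    exact key (m - 1) n (le_refl _) (by omega) (le_refl _)

end Pool.Agent.BLP.H52
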