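import Pool.Agent.BLP.StmtsM

/-!
# Squad BLP, row M_EAQ: the expectation of the last-passage values, rational times
-/

namespace Pool.Agent.BLP.H52

open Pool.Agent.BLP
open MeasureTheory ProbabilityTheory Filter Topology

/-- the last-passage value over an empty time interval is `0` -/
theorem L_self (b : Env) (m n : ℤ) (s : ℝ) : L b m s n s = 0 := by
  have hsub : {E | ∃ τ : ℤ → ℝ, τ (m - 1) = s ∧ τ n = s ∧ (∀ r, m ≤ r → r ≤ n → τ (r - 1) ≤ τ r) ∧
      E = En b τ m n} ⊆ {0} := by
    rintro E ⟨τ, h1, h2, h3, rfl⟩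
    rw [Set.mem_singleton_iff]
    have key : ∀ r r' : ℤ, m - 1 ≤ r → r ≤ r' → r' ≤ n → τ r ≤ τ r' := by
      intro r r' hr hrr'
      refine Int.le_induction (m := r) (motive := fun k _ => k ≤ n → τ r ≤ τ k) ?_ ?_ r' hrr'
      · intro _
        exact le_refl _
      · intro k hk ih hkn
        have h4 : τ r ≤ τ k := ih (by omega)
        have h5 : τ (k + 1 - 1) ≤ τ (k + 1) := h3 (k + 1) (by omega) hkn
        have h6 : k + 1 - 1 = k := by ring
        rw [h6] at h5
        exact le_trans h4 h5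
    have hval : ∀ r : ℤ, m - 1 ≤ r → r ≤ n → τ r = s := by
      intro r hr1 hr2
      apply le_antisymm
      · rw [← h2]
        exact key r n hr1 hr2 (le_refl _)
      · rw [← h1]
        exact key (m - 1) r (le_refl _) hr1 hr2
    unfold En
    apply Finset.sum_eq_zero
    intro r hr
    rw [Finset.mem_Icc] at hr
    rw [hval r (by omega) hr.2, hval (r - 1) (by omega) (by omega), sub_self]
  unfold L
  rcases Set.subset_singleton_iff_eq.mp hsub with h | h
  · rw [h]
    exact Real.sSup_empty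
  · rw [h]
    exact csSup_singleton 0

/-- integrals along a measure preserving map -/
theorem int_mp {X : Type} [MeasurableSpace X] {μ : Measure X} {T : X → X}
    (hT : MeasurePreserving T μ μ) {f : X → ℝ} (hf : Measurable f) :
    ∫ x, f (T x) ∂μ = ∫ x, f x ∂μ := by
  have h := integral_map (μ := μ) (φ := T) (f := f) hT.measurable.aemeasurable
    (by rw [hT.map_eq]; exact hf.aestronglyMeasurable)
  rw [hT.map_eq] at h
  exact h.symm

theorem eaq (hTrf : TrfStmt) (hScf : ScfStmt) (hMea : MeaStmt) : EaqStmt := by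
  intro X _ μ B hSp m n s t hmn hst
  rcases hst.eq_or_lt with h | h
  · subst h
    simp only [L_self, integral_zero, sub_self, Real.sqrt_zero, mul_zero]
  · have hl : (0 : ℚ) < t - s := sub_pos.mpr h
    have hlR : (0 : ℝ) < (t : ℝ) - s := by
      have : ((s : ℚ) : ℝ) < ((t : ℚ) : ℝ) := by exact_mod_cast h
      linarith
    have hsq : (0 : ℝ) < Real.sqrt ((t : ℝ) - s) := Real.sqrt_pos.mpr hlR
    obtain ⟨T, hT, hTx⟩ := hTrf X μ B hSp m s
    have e1 : ∫ x, L (B x) m s n t ∂μ = ∫ x, L (B x) 0 0 (n - m) ((t : ℝ) - s) ∂μ := by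
      rw [← int_mp hT (hMea X μ B hSp 0 0 (n - m) ((t : ℝ) - s))]
      apply integral_congr_ae
      filter_upwards [hTx] with x hx
      rw [hx 0 0 (n - m) ((t : ℝ) - s)]
      simp
    obtain ⟨T', hT', hTx'⟩ := hScf X μ B hSp (t - s) hl
    have e2 : ∫ x, L (B x) 0 0 (n - m) ((t : ℝ) - s) ∂μ =
        (∫ x, L (B x) 0 0 (n - m) 1 ∂μ) * Real.sqrt ((t : ℝ) - s) := by
      rw [← int_mp hT' (hMea X μ B hSp 0 0 (n - m) 1), ← integral_mul_const]
      apply integral_congr_ae
      filter_upwards [hTx'] with x hx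
      rw [hx 0 0 (n - m) 1]
      have hc : (((t - s : ℚ)) : ℝ) = (t : ℝ) - s := by push_cast; ring
      rw [hc, mul_zero, mul_one, div_mul_cancel₀ _ hsq.ne']
    have e3 : (((n - m + 1).toNat : ℕ) : ℤ) - 1 = n - m := by
      rw [Int.toNat_of_nonneg (by omega)]
      ring
    rw [e1, e2]
    unfold aa
    rw [e3]

end Pool.Agent.BLP.H52
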