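import Pool.Agent.BLP.StmtsF

/-!
# Squad BLP, row F_FBE: the Busemann functions of one environment
-/

namespace Pool.Agent.BLP.H52

open Pool.Agent.BLP
open MeasureTheory ProbabilityTheory Filter Topology

/-- a continuous function which is monotone on the rationals is monotone -/
theorem mono_of_rat {g : ℝ → ℝ} (hg : Continuous g) (h : ∀ s t : ℚ, s ≤ t → g s ≤ g t)
    {s t : ℝ} (hst : s ≤ t) : g s ≤ g t := by
  rcases hst.eq_or_lt with rfl | hlt
  · exact le_refl _
  by_contra hcon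
  rw [not_le] at hcon
  have hU : IsOpen ({x : ℝ | (g s + g t) / 2 < g x} ∩ Set.Iio ((s + t) / 2)) :=
    (isOpen_lt continuous_const hg).inter isOpen_Iio
  have hV : IsOpen ({x : ℝ | g x < (g s + g t) / 2} ∩ Set.Ioi ((s + t) / 2)) :=
    (isOpen_lt hg continuous_const).inter isOpen_Ioi
  obtain ⟨a, ha1, ha2⟩ := (Rat.denseRange_cast (𝕜 := ℝ)).exists_mem_open hU
    ⟨s, by show (g s + g t) / 2 < g s; linarith, by show s < (s + t) / 2; linarith⟩
  obtain ⟨c, hc1, hc2⟩ := (Rat.denseRange_cast (𝕜 := ℝ)).exists_mem_open hV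
    ⟨t, by show g t < (g s + g t) / 2; linarith, by show (s + t) / 2 < t; linarith⟩
  have ha1' : (g s + g t) / 2 < g (a : ℝ) := ha1
  have ha2' : (a : ℝ) < (s + t) / 2 := ha2
  have hc1' : g (c : ℝ) < (g s + g t) / 2 := hc1
  have hc2' : (s + t) / 2 < (c : ℝ) := hc2
  have hac : a ≤ c := by
    have h1 : (a : ℝ) ≤ (c : ℝ) := by linarith
    exact_mod_cast h1
  have h2 := h a c hac
  linarith

theorem fbe : FbeStmt := by
  classical
  intro hFex hMod b Φ hb hI hM
  obtain ⟨hI1, hI2, hI3⟩ := hI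
  have hex : ∀ (q : ℚ) (m : ℤ), ∃ ψ : ℝ → ℝ, Continuous ψ ∧ (0 < q → ∀ t : ℚ, ψ t = Φ q m t) := by
    intro q m
    by_cases hq : 0 < q
    · obtain ⟨ψ, h1, h2⟩ := hFex hMod b m (Φ q m) hb (hI1 q hq m) (hM q hq m)
      exact ⟨ψ, h1, fun _ => h2⟩
    · exact ⟨fun _ => 0, continuous_const, fun h => absurd h hq⟩
  choose ψ hψc hψ using hex
  refine ⟨fun q x y => ψ q y.1 y.2 - ψ q x.1 x.2, ?_, ⟨?_, ?_, ?_, ?_⟩, ?_⟩
  · intro q hq m n
    exact ((hψc q n).comp continuous_snd).sub ((hψc q m).comp continuous_fst)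
  · intro q hq x y z
    ring
  · intro q hq m s t hst
    have h := mono_of_rat (g := fun x => ψ q m x - b m x) ((hψc q m).sub (hb m)) (by
      intro s t hst
      have h1 := hI1 q hq m s t hst
      rw [hψ q m hq s, hψ q m hq t]
      linarith) hst
    show b m t - b m s ≤ ψ q m t - ψ q m s
    linarith
  · intro q q' hq hqq' m s t hst
    have hq' : 0 < q' := hq.trans hqq'
    have h := mono_of_rat (g := fun x => ψ q m x - ψ q' m x) ((hψc q m).sub (hψc q' m)) (by
      intro s t hst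
      have h1 := hI2 q q' hq hqq' m s t hst
      rw [hψ q m hq s, hψ q m hq t, hψ q' m hq' s, hψ q' m hq' t]
      linarith) hst
    show ψ q' m t - ψ q' m s ≤ ψ q m t - ψ q m s
    linarith
  · intro q q' hq hqq' m s
    have hq' : 0 < q' := hq.trans hqq'
    show ψ q (m + 1) s - ψ q m s ≤ ψ q' (m + 1) s - ψ q' m s
    refine (Rat.denseRange_cast (𝕜 := ℝ)).induction_on
      (p := fun s => ψ q (m + 1) s - ψ q m s ≤ ψ q' (m + 1) s - ψ q' m s) s ?_ ?_
    · exact isClosed_le ((hψc q (m + 1)).sub (hψc q m)) ((hψc q' (m + 1)).sub (hψc q' m))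
    · intro a
      show ψ q (m + 1) a - ψ q m a ≤ ψ q' (m + 1) a - ψ q' m a
      rw [hψ q (m + 1) hq a, hψ q m hq a, hψ q' (m + 1) hq' a, hψ q' m hq' a]
      exact hI3 q q' hq hqq' m a
  · intro q hq m n s t
    show ψ q n t - ψ q m s = Φ q n t - Φ q m s
    rw [hψ q n hq t, hψ q m hq s]

end Pool.Agent.BLP.H52
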