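import Pool.Agent.BLP.StmtsD

/-!
# Squad BLP, row D_VLT: a valley in the translated environment
-/

namespace Pool.Agent.BLP.H52

open Pool.Agent.BLP
open MeasureTheory ProbabilityTheory Filter Topology

theorem vlt : VltStmt := by
  intro hCov b m k p d α α' Q n t₀ t₁ x₁ x₂ x₃ hmn hk0 h0p hk1 h1p hx1 hx12 hx23 hx3 hv1 hv3
  have hN : ((((n : ℤ) - m).toNat : ℕ) : ℤ) = (n : ℤ) - m := Int.toNat_of_nonneg (by omega)
  have hNR : ((((n : ℤ) - m).toNat : ℕ) : ℝ) = (n : ℝ) - m := by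
    have h : (((((n : ℤ) - m).toNat : ℕ) : ℤ) : ℝ) = (((n : ℤ) - m : ℤ) : ℝ) := by rw [hN]
    push_cast at h
    exact h
  have hL : ∀ (q : ℤ) (t x : ℝ), L (shT k (shL m b)) q (t - k) ((((n : ℤ) - m).toNat : ℕ) : ℤ) (x - k) =
      L b (q + m) t n x := by
    intro q t x
    rw [(hCov (shL m b) q ((((n : ℤ) - m).toNat : ℕ) : ℤ) (t - k) (x - k)).1 (k : ℝ)]
    rw [(hCov b q ((((n : ℤ) - m).toNat : ℕ) : ℤ) (t - k + k) (x - k + k)).2.1 m]
    rw [hN]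
    congr 1 <;> ring
  have hD : ∀ x : ℝ, Dx (shT k (shL m b)) 0 (t₀ - k) (Q : ℤ) (t₁ - k) ((((n : ℤ) - m).toNat : ℕ) : ℤ) (x - k) =
      Dx b m t₀ (m + Q) t₁ n x := by
    intro x
    unfold Dx
    rw [hL 0 t₀ x, hL (Q : ℤ) t₁ x, zero_add, add_comm (Q : ℤ) m]
  refine ⟨t₀ - k, t₁ - k, x₁ - k, x₂ - k, x₃ - k, by linarith, by linarith, by linarith, by linarith,
    ?_, by linarith, by linarith, ?_, ?_, ?_⟩
  · rw [hNR]
    exact hx1
  · rw [hNR]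
    exact hx3
  · rw [hD, hD]
    exact hv1
  · rw [hD, hD]
    exact hv3

end Pool.Agent.BLP.H52
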